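import Pool.Agent.H303.DEE.FGlue
import Pool.Agent.H303.DEE.FH1
import Pool.Agent.H303.DEE.FH2
import Pool.Agent.H303.DEE.FH3
import Pool.Agent.H303.DEE.FH4
import Pool.Agent.H303.DEE.FH5
import Pool.Agent.H303.DEE.FH6a
import Pool.Agent.H303.DEE.FH6b
import Pool.Agent.H303.DEE.FH6
import Pool.Agent.H303.DEE.FH7
import Pool.Agent.H303.DEE.FH8a
import Pool.Agent.H303.DEE.FH8
import Pool.Agent.H303.DEE.FH9a
import Pool.Agent.H303.DEE.FH9
import Pool.Agent.H303.DEE.FH10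
import Pool.Agent.H303.DEE.FP1
import Pool.Agent.H303.DEE.FP2
import Pool.Agent.H303.DEE.FP3
import Pool.Agent.H303.DEE.FP4
import Pool.Agent.H303.DEE.FP5
import Pool.Agent.H303.DEE.FP6
import Pool.Agent.H303.DEE.FP7
import Pool.Agent.H303.DEE.R1
import Pool.Agent.H303.DEE.R2
import Pool.Agent.H303.DEE.R3
import Pool.Agent.H303.DEE.J1
import Pool.Agent.H303.DEE.J2
import Pool.Agent.H303.DEE.J3
import Pool.Agent.H303.DEE.J3d
import Pool.Agent.H303.DEE.J4a
import Pool.Agent.H303.DEE.J4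
import Pool.Agent.H303.DEE.J5
import Pool.Agent.H303.DEE.J6
import Pool.Agent.H303.DEE.J7a
import Pool.Agent.H303.DEE.J7b
import Pool.Agent.H303.DEE.J8ab
import Pool.Agent.H303.DEE.J9ab
import Pool.Agent.H303.DEE.J9cd
import Pool.Agent.H303.DEE.J9m
import Pool.Agent.H303.DEE.J9
import Pool.Agent.H303.DEE.J10
import Pool.Agent.H303.DEE.J11
import Pool.Agent.H303.DEE.J12
import Pool.Agent.H303.DEE.J13
import Pool.Agent.H303.DEE.K0
import Pool.Agent.H303.DEE.K1a
import Pool.Agent.H303.DEE.K1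
import Pool.Agent.H303.DEE.K2
import Pool.Agent.H303.DEE.K3a
import Pool.Agent.H303.DEE.K3b
import Pool.Agent.H303.DEE.K45
import Pool.Agent.H303.DEE.K6

/-!
# Uniqueness beyond the Ladyzhenskaya-Prodi-Serrin scale: Navier-Stokes equations with dispersion

Let `n ≥ 5` be odd, `ν > 0` and `α₁, α₂, α₃` nonzero real numbers, of any size and sign. We consider
the three-dimensional periodic Navier-Stokes equations with the additional skew-adjoint term
`∑_j α_j ∂_j^n v`,

  `∂ₜ v + (v · ∇) v + ∇ p = ν Δ v + ∑_j α_j ∂_j^n v`,  `div v = 0`,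

and weak solutions `v ∈ C([0, T]; L²)` in the sense of the problem (`IsWeak`, tested with smooth
divergence-free fields with compact support in `(0, T) × 𝕋³`; no energy inequality, and the mean need
not be zero). For all real `p, q` with `p > 2`, `q ≥ 4` and `2/p + 2/q ≤ 1`, any two such solutions
in `L^p(0, T; L^q)` with the same initial value are equal. For `q < ∞` and `2/p + 2/q = 1` we have
`2/p + 3/q = 1 + 1/q > 1`, for `p = q = 4` this is `5/4`: for these equations the range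
`2/p + 3/q ≤ 1` of Ladyzhenskaya, Prodi and Serrin is not sharp.

The proof: such a solution is in `L⁴([0, T] × 𝕋³)` and in `L²(0, T; H¹)`, and the Fourier coefficients satisfy a system of
ordinary differential equations. The resonance function of a triad with the largest frequency `L` is
at least `|L| ^ 3` except for few triads (at most `C M ^ 2` frequencies of length at most `M` for
each `L`: `Pool.Agent.H226.DE.few_diag`, part of the theorem `MP_6bf1e5_an.OddDispersion`). The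
contribution of these few to the energy of the difference is estimated by the dissipation, and that
of the others after integration by parts in time; the high frequencies of the flux tend to zero.
-/

open MeasureTheory Set Filter Topology
open scoped ContDiff ENNReal
open Pool.Agent.H303.DEE (V Q Periodic partialD)

namespace Pool.Agent.Results.MP_3d7a54_an.UniquenessL4

/-! ### Definitions (`V`, `Q`, `Periodic`, `partialD` are in `Pool.Agent.H303.DEE.Defs`) -/

/-- Smooth test fields, periodic in `x`, with divergence zero and with compact support in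
`(0, T) × 𝕋³`. -/
structure Test (T : ℝ) (φ : ℝ → V → V) : Prop where
  smooth : ContDiff ℝ ∞ fun z : ℝ × V => φ z.1 z.2
  per : ∀ t, Periodic (φ t)
  divfree : ∀ t x, ∑ j, partialD 1 j (fun y => φ t y j) x = 0
  supp : ∃ a b : ℝ, 0 < a ∧ b < T ∧ ∀ t, t ∉ Icc a b → φ t = 0

/-- The integrand of the weak formulation, for the test field `φ`, at the time `s`:
`v · ∂ₜφ + (v ⊗ v) : ∇φ + ν v · Δφ - ∑_j α_j v · ∂_j^n φ` (`n` is odd). -/
noncomputable def integrand (n : ℕ) (ν : ℝ) (α : Fin 3 → ℝ) (v φ : ℝ → V → V) (s : ℝ) (x : V) :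
    ℝ :=
  (∑ i, v s x i * deriv (fun r => φ r x i) s)
    + (∑ i, ∑ j, v s x i * v s x j * partialD 1 j (fun y => φ s y i) x)
    + ν * (∑ i, ∑ j, v s x i * partialD 2 j (fun y => φ s y i) x)
    - ∑ i, ∑ j, α j * (v s x i * partialD n j (fun y => φ s y i) x)

/-- `v ∈ C([0, T]; L²)` is a weak solution on `[0, T]` of
`∂ₜ vᵢ + ∑_j v_j ∂_j vᵢ = ν ∑_j ∂_j² vᵢ + ∑_j α_j ∂_j^n vᵢ - ∂ᵢ p`, `div v = 0` (`n` odd), periodic
in `x` with the period cell `Q` (only the values in `Q` matter): `v` is continuous in time with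
values in `L²(Q)³` (for the strong topology), weakly divergence free at all times, and the equation
holds in the sense of distributions in `(0, T) × 𝕋³`, against test fields with divergence zero. -/
structure IsWeak (n : ℕ) (ν : ℝ) (α : Fin 3 → ℝ) (T : ℝ) (v : ℝ → V → V) : Prop where
  meas : Measurable fun z : ℝ × V => v z.1 z.2
  l2 : ∀ t ∈ Icc 0 T, ∀ i, MemLp (fun x => v t x i) 2 (volume.restrict Q)
  cont : ∀ t ∈ Icc 0 T, Tendsto (fun s => ∫ x in Q, ∑ i, (v s x i - v t x i) ^ 2)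
    (𝓝[Icc 0 T] t) (𝓝 0)
  divfree : ∀ t ∈ Icc 0 T, ∀ ψ : V → ℝ, ContDiff ℝ ∞ ψ → Periodic ψ →
    ∫ x in Q, ∑ j, v t x j * partialD 1 j ψ x = 0
  weak : ∀ φ, Test T φ → ∫ s in (0 : ℝ)..T, ∫ x in Q, integrand n ν α v φ s x = 0

/-- `v ∈ L^p(0, T; L^q(Q))`, for real `p, q`: each component has
`∫_0^T (∫_Q |v_i|^q dx)^(p/q) dt < ∞`. -/
def InLpq (p q T : ℝ) (v : ℝ → V → V) : Prop :=
  ∀ i, ∫⁻ t in Icc 0 T, (∫⁻ x in Q, ‖v t x i‖ₑ ^ q) ^ (p / q) < ⊤

/-! ### The proof -/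

lemma weak_iff {n : ℕ} {ν : ℝ} {α : Fin 3 → ℝ} {T : ℝ} {v : ℝ → V → V} (h : IsWeak n ν α T v) :
    Pool.Agent.H303.DEE.F.IsWeakC n ν α T v :=
  ⟨h.meas, h.l2, h.cont, h.divfree, fun φ hφ =>
    h.weak φ ⟨hφ.smooth, hφ.per, hφ.divfree, hφ.supp⟩⟩

lemma inL4 {n : ℕ} {ν : ℝ} {α : Fin 3 → ℝ} {T p q : ℝ} {v : ℝ → V → V} (hq : 4 ≤ q) (hp : 2 < p)
    (hpq : 2 / p + 2 / q ≤ 1) (h : IsWeak n ν α T v) (h4 : InLpq p q T v) :
    Pool.Agent.H303.DEE.F.InL4 T v := by
  obtain ⟨E, hE⟩ := Pool.Agent.H303.DEE.F.k1a n ν α T v (weak_iff h)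
  exact Pool.Agent.H303.DEE.F.k6 p q T E v hq hp hpq h.meas h.l2 hE h4

open Pool.Agent.H303.DEE Pool.Agent.H303.DEE.F in
lemma j12' : J12 := by
  have k6a : H6 := h6 (h6b h6a)
  have k8 : H8 := h8 h8a
  have m9 : J9m := j9m
  have l4 : J4 := j4 (j4a j3 h4 h5 k6a h7 k8)
  have l9 : J9 := j9 j3d (j9a (j5 h6a)) j9b (j9c j6) (j9d (j7a h8a) j7b j8a j8b) m9
  exact j12 (j10 j1 j2 l4 l9 m9) j11 m9

open Pool.Agent.H303.DEE Pool.Agent.H303.DEE.F in
lemma k5' : K5 :=
  k5 j12' p1 (k4 p1 p4 k1a (k1 k0 k1a) (k2 p2 p4 k1a) k3a (k3b p1 p2))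

/-- **Uniqueness of weak solutions in `C([0, T]; L²) ∩ L^p(0, T; L^q)`, `q ≥ 4`, `2/p + 2/q ≤ 1`**,
of the periodic Navier-Stokes equations with the dispersion `∑_j α_j ∂_j^n v`, for every odd `n ≥ 5`,
every viscosity `ν > 0` and all nonzero `α₁, α₂, α₃`. The exponents `p = q = 4` satisfy
`2/p + 3/q > 1`, and so do all pairs with `2/p + 2/q = 1`. -/
theorem result {n : ℕ} (hn : Odd n) (h5 : 5 ≤ n) {ν : ℝ} (hν : 0 < ν) {α : Fin 3 → ℝ}
    (hα : ∀ j, α j ≠ 0) {p q : ℝ} (hq : 4 ≤ q) (hp : 2 < p) (hpq : 2 / p + 2 / q ≤ 1) (T : ℝ)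
    (v w : ℝ → V → V) (hv : IsWeak n ν α T v) (hw : IsWeak n ν α T w)
    (hv4 : InLpq p q T v) (hw4 : InLpq p q T w) (h0 : w 0 =ᵐ[volume.restrict Q] v 0) :
    (2 / p + 2 / q = 1 → 2 / p + 3 / q > 1) ∧
      ∀ t ∈ Icc 0 T, w t =ᵐ[volume.restrict Q] v t := by
  obtain ⟨C, hC, hF⟩ := Pool.Agent.H303.DEE.F.few_gg hn h5 hα
  have h1 : 0 < 1 / q := by positivity
  refine ⟨fun h => ?_, k5' n ν α C hν hn hC hF T v w (weak_iff hv) (weak_iff hw)
    (inL4 hq hp hpq hv hv4) (inL4 hq hp hpq hw hw4) h0⟩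
  have h2 : 3 / q = 2 / q + 1 / q := by ring
  rw [h2]
  linarith

end Pool.Agent.Results.MP_3d7a54_an.UniquenessL4
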